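import Pool.Agent.helper54.TS.Spec

set_option autoImplicit false

open Polynomial Finset

noncomputable section

namespace Pool.Agent.TS

open Pool.Agent.PSA (IsSalem Indep Fac)

theorem LIO (hNNR : NNR_stmt) : LIO_stmt := by
  intro K _ ι β σ k φ w hSF v N H M n1 S' hN hv hn1 q hq
  obtain ⟨h0, hlt, hH, hint, hσ, hnn⟩ := hq
  obtain ⟨nn0, -, -, -, -, nnle, -, -⟩ := hNNR K k φ
  set x : K := (N : K) * (v - q.1) with hx
  have hxi : IsIntegral ℤ x := by
    have e : x = (N : K) * v - (N : K) * q.1 := by rw [hx]; ring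
    rw [e]
    have h1 : IsIntegral ℤ ((N : K)) := by
      have := (isIntegral_algebraMap (R := ℤ) (A := K) (x := (N : ℤ)))
      simpa using this
    exact (h1.mul hv).sub hint
  have hNr : (0 : ℝ) < N := by exact_mod_cast hN
  have hιx : ι x = N * (ι v - ι q.1) := by
    rw [hx, map_mul, map_natCast, map_sub]
  have hιpos : 0 < ι x := by
    rw [hιx]
    exact mul_pos hNr (by linarith)
  have hx0 : x ≠ 0 := by
    intro h
    rw [h, map_zero] at hιpos
    exact lt_irrefl _ hιpos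
  have hσx : |σ x| ≤ N * (|σ v| + S') := by
    rw [hx, map_mul, map_natCast, map_sub, abs_mul, abs_of_pos hNr]
    refine mul_le_mul_of_nonneg_left ((abs_sub _ _).trans ?_) hNr.le
    linarith
  have hM : nn φ q.1 ≤ M := by
    have : 0 ≤ (q.2 : ℝ) * n1 := mul_nonneg (Nat.cast_nonneg _) hn1
    linarith
  have hS0 : 0 ≤ |σ v| + S' := by
    have := abs_nonneg (σ v)
    have := (abs_nonneg (σ q.1)).trans hσ
    linarith
  have hφx : ∀ j, ‖φ j x‖ ≤ N * (nn φ v + M) := by
    intro j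
    rw [hx, map_mul, map_natCast, map_sub, norm_mul, Complex.norm_natCast]
    refine mul_le_mul_of_nonneg_left ((norm_sub_le _ _).trans ?_) hNr.le
    have h1 := nnle v j
    have h2 := nnle q.1 j
    linarith
  have hprod : ∏ j, ‖φ j x‖ ^ 2 ≤ (N * (nn φ v + M)) ^ (2 * k) := by
    have h1 : ∏ j : Fin k, ‖φ j x‖ ^ 2 ≤ ∏ _j : Fin k, (N * (nn φ v + M)) ^ 2 := by
      refine prod_le_prod (fun j _ => by positivity) (fun j _ => ?_)
      exact pow_le_pow_left₀ (norm_nonneg _) (hφx j) 2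
    rw [prod_const, card_univ, Fintype.card_fin, ← pow_mul] at h1
    exact h1
  have h1 := hSF.nrm x hxi hx0
  have hM0 : 0 ≤ nn φ v + M := by
    have := nn0 v
    have := nn0 q.1
    linarith
  calc (1 : ℝ) ≤ |ι x| * |σ x| * ∏ j, ‖φ j x‖ ^ 2 := h1
    _ ≤ (N * (ι v - ι q.1)) * (N * (|σ v| + S')) * (N * (nn φ v + M)) ^ (2 * k) := by
        rw [abs_of_pos hιpos, hιx]
        have a1 : 0 ≤ (N : ℝ) * (ι v - ι q.1) := by rw [← hιx]; exact hιpos.le
        refine mul_le_mul (mul_le_mul_of_nonneg_left hσx a1) hprod ?_ ?_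
        · exact prod_nonneg fun j _ => by positivity
        · exact mul_nonneg a1 (mul_nonneg hNr.le hS0)
    _ = (ι v - ι q.1) * ((N : ℝ) ^ (2 * k + 2) * (|σ v| + S') * (nn φ v + M) ^ (2 * k)) := by
        rw [mul_pow]
        ring

end Pool.Agent.TS
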