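import Pool.Agent.helper54.TS.Spec

set_option autoImplicit false

open Polynomial Finset

noncomputable section

namespace Pool.Agent.TS

open Pool.Agent.PSA (IsSalem Indep Fac)

theorem MRN_rng {β δ : ℝ} {F : ℝ → ℝ} (h : RB β F δ) (J : ℕ) : 0 ≤ F^[J] 1 ∧ F^[J] 1 ≤ 1 := by
  induction J with
  | zero => simp
  | succ n ih =>
    rw [Function.iterate_succ_apply']
    obtain ⟨a, b⟩ := h.rng _ ih.1 ih.2
    exact ⟨a, b.le⟩

theorem MRN (hPIG : PIG_stmt) : MRN_stmt := by
  intro K _ ι β hβ F dg S δ hB hF0 v h dl J A hv1 hv2 hdl hM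
  obtain ⟨t, ht, htA⟩ := hM.start
  obtain ⟨hsA, N, P, hP, hper⟩ := hPIG (K × ℕ) A (mch ι β v dg dl) (t, 0) hM.fin htA hM.step
  set s : ℕ → K × ℕ := fun n => (mch ι β v dg dl)^[n] (t, 0) with hs
  set q : ℕ → K × ℕ := fun n => plan ι β v dl (s n) with hq
  have hs1 : ∀ n, s (n + 1) = blo ι β v dg (q n) := fun n =>
    Function.iterate_succ_apply' (mch ι β v dg dl) n _
  have low : ∀ n, 0 ≤ ι (q n).1 := fun n => hM.low _ (hsA n)
  have up : ∀ n, ι (q n).1 < ι v * (1 - 2 * (ι β)⁻¹ ^ J) := fun n => hM.up _ (hsA n)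
  have hz : 0 < (ι β)⁻¹ := inv_pos.2 (by linarith)
  have up1 : ∀ n, ι (q n).1 < ι v := by
    intro n
    refine (up n).trans ?_
    have : 0 < (ι β)⁻¹ ^ J := pow_pos hz J
    nlinarith
  have hv0 : 0 < ι v := by linarith
  have hy0 : ∀ n, 0 ≤ ι (q n).1 / ι v := fun n => div_nonneg (low n) hv0.le
  have hy1 : ∀ n, ι (q n).1 / ι v ≤ 1 := fun n => by
    rw [div_le_one hv0]
    exact (up1 n).le
  have hFy := fun n => hB.eq _ (hy0 n) (hy1 n)
  have hrng := fun n => hB.rb.rng _ (hy0 n) (hy1 n)
  have hun : ∀ n, ι (s (n + 1)).1 = ι β * ι (q n).1 - ι v * ι (dg (ι (q n).1 / ι v)) := by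
    intro n
    rw [hs1]
    simp only [blo, map_sub, map_mul]
  have hun2 : ∀ n, ι (s (n + 1)).1 = ι v * F (ι (q n).1 / ι v) := by
    intro n
    rw [hun, hFy]
    field_simp
  refine ⟨fun n => ι (s n).1, fun n => ι (q n).1, fun n => dg (ι (q n).1 / ι v), fun n => (s n).2,
    fun n => (q n).2, ?_, ht, up, N, P, hP, ?_⟩
  · constructor
    · intro n
      by_cases hc : (s n).2 = 0 ∧ ι v * (ι β)⁻¹ ≤ ι (s n).1
      · left
        have e : q n = ((s n).1 - β⁻¹ ^ (dl (s n).1 + 1), dl (s n).1 + 1) := by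
          rw [hq]
          simp only [plan]
          rw [if_pos hc]
        refine ⟨hc.1, hc.2, ?_, ?_⟩
        · simp only [e]
          have := hdl (s n).1
          omega
        · simp only [e, map_sub, map_pow, map_inv₀]
      · right
        have e : q n = s n := by
          rw [hq]
          simp only [plan]
          rw [if_neg hc]
        refine ⟨?_, by simp only [e], by simp only [e]⟩
        rw [not_and_or, not_le] at hc
        exact hc
    · intro n
      simp only [inv_inv]
      exact hun n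
    · intro n
      simp only [hs1, blo]
    · exact low
    · exact up1
    · intro n
      simp only [inv_inv]
      exact hFy n
    · intro n
      simp only [inv_inv]
      refine ⟨hB.pos _ (hB.mem _ (hy0 n) (hy1 n)), ?_⟩
      have h1 := hFy n
      have h2 := (hrng n).1
      have h3 : ι β * (ι (q n).1 / ι v) ≤ ι β * 1 :=
        mul_le_mul_of_nonneg_left (hy1 n) (by linarith)
      linarith
    · intro n
      cases n with
      | zero =>
        have h1 : ι (s 0).1 = F^[J] 1 := ht
        simp only [h1]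
        obtain ⟨a, b⟩ := MRN_rng hB.rb J
        exact ⟨a, by linarith⟩
      | succ n =>
        simp only [hun2]
        obtain ⟨a, b⟩ := hrng n
        constructor
        · exact mul_nonneg hv0.le a
        · nlinarith
    · rfl
    · have h1 : ι (s 0).1 = F^[J] 1 := ht
      simp only [h1]
      exact lt_of_le_of_ne (MRN_rng hB.rb J).1 (Ne.symm (hF0 J))
  · intro n hn
    have h1 : s (n + P) = s n := hper n hn
    have h2 : q (n + P) = q n := by
      rw [hq]
      simp only [h1]
    simp only [h2, and_self]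

end Pool.Agent.TS
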