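import Pool.Agent.helper54.TS.Spec

set_option autoImplicit false

open Polynomial Finset

noncomputable section

namespace Pool.Agent.TS

open Pool.Agent.PSA (IsSalem Indep Fac)

theorem NZR (hORP : ORP_stmt) : NZR_stmt := by
  intro K _ ι β p b κ θ hS i hi hbad m hm
  apply hbad
  intro x hx
  have hx1 : x = 1 := by
    rcases hx with ⟨-, h⟩ | ⟨h, -⟩
    · exact h
    · linarith
  rw [hx1]
  obtain ⟨-, -, h3⟩ := hORP p b κ θ hS.pb hS.pk hS.pt
  have hz : ∀ r, orb b κ θ i 0 r = 0 := by
    intro r
    induction r with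
    | zero => rfl
    | succ n ih =>
      have h : orb b κ θ i 0 (n + 1) =
          rho (κ (i + n + 1)) (θ (i + n + 1)) (Int.fract (b (i + n) * orb b κ θ i 0 n)) := rfl
      rw [h, ih, mul_zero, Int.fract_zero, rho, if_pos]
      have := hS.hk (i + n + 1)
      linarith
  have hr : ∀ r, orb b κ θ i 1 (m * p + r) = 0 := by
    intro r
    rw [h3 i 1 m r, hm, hz]
  refine (((Finset.range (m * p)).finite_toSet.image (orb b κ θ i 1)).union (Set.finite_singleton 0)).subset ?_
  rintro y ⟨n, rfl⟩
  by_cases h : n < m * p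
  · left
    exact ⟨n, by simpa using h, rfl⟩
  · right
    have h4 := hr (n - m * p)
    rw [Nat.add_sub_cancel' (not_lt.1 h)] at h4
    exact h4

end Pool.Agent.TS
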